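import Pool.Agent.PJC.Stmts
import Pool.Agent.Helper55_PB.Hull

/-!
# Squad PJC, row HUL: the convex hull of a compact set is compact
-/

namespace Pool.Agent.PJC.H33

/-- HUL -/
theorem hul : HulStmt := by
  intro F _ _ _ s hs
  exact Pool.Agent.Helper55_PB.isCompact_convexHull_of_isCompact hs

end Pool.Agent.PJC.H33
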